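import Mathlib

set_option autoImplicit false

namespace Pool.Agent.H.MP_242378_al

open Filter Topology

theorem path {M : Type} [MetricSpace M] [CompleteSpace M] (f : ℕ → ℕ → M)
    (h1 : ∀ m k, f (m + 1) (2 * k) = f m k) (h2 : ∀ m k, dist (f m k) (f m (k + 1)) ≤ 1 / 2 ^ m) :
    ∃ e : unitInterval → M, Continuous e ∧ e 0 = f 0 0 ∧ e 1 = f 0 1 ∧
      ∀ s, e s ∈ closure {x | ∃ m k, x = f m k} := by
  have h3 : ∀ m k j, dist (f m k) (f m (k + j)) ≤ j / 2 ^ m := by
    intro m k j
    induction j with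
    | zero => simp
    | succ j ih =>
      have := dist_triangle (f m k) (f m (k + j)) (f m (k + j + 1))
      have := h2 m (k + j)
      rw [← add_assoc]; push_cast; rw [add_div]; linarith
  have h4 : ∀ (m k l : ℕ) (c : ℝ), |(k : ℝ) - l| ≤ c → dist (f m k) (f m l) ≤ c / 2 ^ m := by
    intro m k l c hc
    rw [abs_le] at hc
    rcases le_total k l with h | h
    · obtain ⟨j, rfl⟩ := Nat.exists_eq_add_of_le h
      refine (h3 m k j).trans ?_
      gcongr
      push_cast at hc; linarith
    · obtain ⟨j, rfl⟩ := Nat.exists_eq_add_of_le h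
      rw [dist_comm]
      refine (h3 m l j).trans ?_
      gcongr
      push_cast at hc; linarith
  let g : unitInterval → ℕ → M := fun s m => f m ⌊(s : ℝ) * 2 ^ m⌋₊
  have fl : ∀ (s : unitInterval) (m : ℕ), ((⌊(s : ℝ) * 2 ^ m⌋₊ : ℕ) : ℝ) ≤ s * 2 ^ m ∧
      (s : ℝ) * 2 ^ m < ⌊(s : ℝ) * 2 ^ m⌋₊ + 1 := fun s m =>
    ⟨Nat.floor_le (mul_nonneg s.2.1 (by positivity)), Nat.lt_floor_add_one _⟩
  have hc : ∀ s, CauchySeq (g s) := by
    intro s
    refine cauchySeq_of_le_geometric (1 / 2) 1 (by norm_num) fun m => ?_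
    simp only [g]
    rw [← h1 m]
    refine (h4 _ _ _ 2 ?_).trans (le_of_eq ?_)
    · have a := fl s m
      have b := fl s (m + 1)
      rw [pow_succ] at b ⊢
      rw [abs_le]; push_cast; constructor <;> nlinarith
    · rw [pow_succ, one_div_pow]; field_simp
  choose e he using fun s => cauchySeq_tendsto_of_complete (hc s)
  refine ⟨e, ?_, ?_, ?_, fun s => mem_closure_of_tendsto (he s)
    (Eventually.of_forall fun m => ⟨m, _, rfl⟩)⟩
  · refine (LipschitzWith.of_dist_le_mul (K := 1) fun s t => ?_).continuous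
    have ht : Tendsto (fun m : ℕ => dist s t + (1 / 2 : ℝ) ^ m) atTop (𝓝 (dist s t + 0)) :=
      (tendsto_pow_atTop_nhds_zero_of_lt_one (by norm_num) (by norm_num)).const_add _
    rw [add_zero] at ht
    simp only [NNReal.coe_one, one_mul]
    refine le_of_tendsto_of_tendsto' ((he s).dist (he t)) ht fun m => ?_
    refine (h4 _ _ _ (dist s t * 2 ^ m + 1) ?_).trans (le_of_eq ?_)
    · have a := fl s m
      have b := fl t m
      have c : |(s : ℝ) - t| ≤ dist s t := le_of_eq rfl
      rw [abs_le] at c ⊢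
      have p : (0 : ℝ) < 2 ^ m := by positivity
      constructor <;> nlinarith
    · rw [one_div_pow]; field_simp
  · refine tendsto_nhds_unique (he 0) (tendsto_const_nhds.congr fun m => ?_)
    simp only [g, Set.Icc.coe_zero, zero_mul, Nat.floor_zero]
    induction m with
    | zero => rfl
    | succ m ih => rw [ih, ← h1 m]
  · refine tendsto_nhds_unique (he 1) (tendsto_const_nhds.congr fun m => ?_)
    simp only [g, Set.Icc.coe_one, one_mul]
    rw [show ((2 : ℝ) ^ m) = ((2 ^ m : ℕ) : ℝ) by push_cast; rfl, Nat.floor_natCast]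
    induction m with
    | zero => rfl
    | succ m ih => rw [ih, ← h1 m, pow_succ']

structure IP {M : Type} [Ring M] [TopologicalSpace M] (e : unitInterval → M) : Prop where
  c : Continuous e
  z : e 0 = 0
  o : e 1 = 1
  i : ∀ s, e s * e s = e s

def U {M : Type} [Ring M] (w : ℕ → M) : ℕ → M
  | 0 => 1
  | n + 1 => U w n * w n

def V {M : Type} [Ring M] (w : ℕ → M) : ℕ → M
  | 0 => 1
  | n + 1 => w n * V w n

theorem htpy {M : Type} [Ring M] [TopologicalSpace M] (G : unitInterval × M → M)
    (hG : Continuous G) (h1 : ∀ r, G (r, 1) = 1) (hm : ∀ r x y, G (r, x * y) = G (r, x) * G (r, y))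
    (f g : C({x : M // IsUnit x}, {x : M // IsUnit x})) (hf : ∀ x, (f x).1 = G (0, x))
    (hg : ∀ x, (g x).1 = G (1, x)) : f.Homotopic g := by
  have hu : ∀ r x, IsUnit x → IsUnit (G (r, x)) := fun r x hx =>
    hx.map (⟨⟨fun x => G (r, x), h1 r⟩, hm r⟩ : M →* M)
  exact ⟨⟨⟨fun q => ⟨G (q.1, q.2.1), hu _ _ q.2.2⟩, by fun_prop⟩,
    fun x => Subtype.ext (hf x).symm, fun x => Subtype.ext (hg x).symm⟩⟩

theorem contr {M : Type} [Ring M] [MetricSpace M] [CompleteSpace M] [IsTopologicalRing M]
    (hl : ∀ a b c : M, dist (a * b) (a * c) ≤ dist b c)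
    (hr : ∀ a b c : M, dist (b * a) (c * a) ≤ dist b c)
    (A : ℕ → Set M) (hA : Monotone A) (hd : Dense (⋃ n, A n))
    (W : ℕ → M) (hW : ∀ n, W n * W n = 1) (hWA : ∀ n, ∀ x ∈ A n, Commute (W n) x)
    (E : ℕ → unitInterval → M) (hE : ∀ n, IP (E n)) (hEA : ∀ n s, ∀ x ∈ A n, Commute (E n s) x)
    (hEW : ∀ n s, Commute (E n s) (W n))
    (e : unitInterval → M) (he : IP e)
    (heA : ∀ n s, ∀ x ∈ A n, Commute (e s) (U W n * x * V W n)) :
    ContractibleSpace {x : M // IsUnit x} := by
  let w : unitInterval → ℕ → M := fun s n => 1 - E n s + W n * E n s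
  have ww : ∀ s n, w s n * w s n = 1 := by
    intro s n
    have a := (hE n).i s
    have b := (hEW n s).eq
    have c := hW n
    have d : W n * E n s * (W n * E n s) = E n s := by
      rw [mul_assoc, ← mul_assoc (E n s), b, mul_assoc, a, ← mul_assoc, c, one_mul]
    have f : E n s * (W n * E n s) = W n * E n s := by rw [← mul_assoc, b, mul_assoc, a]
    simp only [w, mul_add, add_mul, mul_sub, sub_mul, one_mul, mul_one, d, f, a, mul_assoc]
    abel
  have wA : ∀ s n, ∀ x ∈ A n, Commute (w s n) x := fun s n x hx =>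
    ((Commute.one_left x).sub_left (hEA n s x hx)).add_left ((hWA n x hx).mul_left (hEA n s x hx))
  have VU : ∀ s n, V (w s) n * U (w s) n = 1 ∧ U (w s) n * V (w s) n = 1 := by
    intro s n
    induction n with
    | zero => simp [U, V]
    | succ n ih =>
      simp only [U, V]
      constructor
      · rw [mul_assoc, ← mul_assoc (V _ _), ih.1, one_mul, ww]
      · rw [mul_assoc, ← mul_assoc (w s n), ww, one_mul, ih.2]
  have st : ∀ s n, ∀ x ∈ A n, ∀ N, n ≤ N → U (w s) N * x * V (w s) N = U (w s) n * x * V (w s) n := by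
    intro s n x hx N hN
    induction N, hN using Nat.le_induction with
    | base => rfl
    | succ N hN ih =>
      rw [← ih]
      simp only [U, V]
      rw [mul_assoc (U _ _), (wA s N x (hA hN hx)).eq]
      simp only [mul_assoc]
      rw [← mul_assoc (w s N), ww, one_mul]
  have lip : ∀ a b x y : M, dist (a * x * b) (a * y * b) ≤ dist x y := fun a b x y =>
    (hr _ _ _).trans (hl _ _ _)
  have hc : ∀ q : unitInterval × M, CauchySeq fun N => U (w q.1) N * q.2 * V (w q.1) N := by
    intro q
    rw [Metric.cauchySeq_iff']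
    intro ε hε
    obtain ⟨y, hy, hxy⟩ := hd.exists_dist_lt q.2 (half_pos hε)
    obtain ⟨n, hn⟩ := Set.mem_iUnion.1 hy
    refine ⟨n, fun N hN => ?_⟩
    have a := dist_triangle (U (w q.1) N * q.2 * V (w q.1) N) (U (w q.1) N * y * V (w q.1) N)
      (U (w q.1) n * q.2 * V (w q.1) n)
    have b := lip (U (w q.1) N) (V (w q.1) N) q.2 y
    have c := lip (U (w q.1) n) (V (w q.1) n) y q.2
    rw [← st q.1 n y hn N hN, dist_comm y] at c
    linarith
  choose G hG using fun q => cauchySeq_tendsto_of_complete (hc q)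
  have GA : ∀ s n, ∀ x ∈ A n, G (s, x) = U (w s) n * x * V (w s) n := fun s n x hx =>
    tendsto_nhds_unique (hG (s, x)) (tendsto_const_nhds.congr'
      ((eventually_ge_atTop n).mono fun N hN => (st s n x hx N hN).symm))
  have cU : ∀ n, Continuous (fun s => U (w s) n) ∧ Continuous (fun s => V (w s) n) := by
    intro n
    induction n with
    | zero => exact ⟨continuous_const, continuous_const⟩
    | succ n ih =>
      have := (hE n).c
      have : Continuous fun s => w s n := by simp only [w]; fun_prop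
      exact ⟨ih.1.mul this, this.mul ih.2⟩
  have cG : Continuous G := by
    refine continuous_prod_of_dense_continuous_lipschitzWith' G 1 hd (fun s => ?_) fun x hx => ?_
    · refine LipschitzWith.of_dist_le_mul fun x y => ?_
      simp only [NNReal.coe_one, one_mul]
      exact le_of_tendsto' ((hG (s, x)).dist (hG (s, y))) fun N => lip _ _ _ _
    · obtain ⟨n, hn⟩ := Set.mem_iUnion.1 hx
      simp only [GA _ n x hn]
      exact ((cU n).1.mul continuous_const).mul (cU n).2
  have G1 : ∀ r, G (r, 1) = 1 := fun r => tendsto_nhds_unique (hG (r, 1))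
    (tendsto_const_nhds.congr fun N => by simp [(VU r N).2])
  have Gm : ∀ r x y, G (r, x * y) = G (r, x) * G (r, y) := fun r x y =>
    tendsto_nhds_unique (hG (r, x * y)) (((hG (r, x)).mul (hG (r, y))).congr fun N => by
      simp only [mul_assoc]
      rw [← mul_assoc (V _ _), (VU r N).1, one_mul])
  have w0 : ∀ n, U (w 0) n = 1 ∧ V (w 0) n = 1 := by
    intro n
    induction n with
    | zero => exact ⟨rfl, rfl⟩
    | succ n ih => simp [U, V, ih, w, (hE n).z]
  have w1 : w 1 = W := funext fun n => by simp [w, (hE n).o]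
  have G0 : ∀ x, G (0, x) = x := fun x => tendsto_nhds_unique (hG (0, x))
    (tendsto_const_nhds.congr fun N => by simp [w0 N])
  have eG : ∀ s x, e s * G (1, x) = G (1, x) * e s := fun s x =>
    hd.induction (P := fun x => e s * G (1, x) = G (1, x) * e s) (fun x hx => by
      obtain ⟨n, hn⟩ := Set.mem_iUnion.1 hx
      rw [GA 1 n x hn, w1]
      exact (heA n s x hn).eq) (isClosed_eq (by fun_prop) (by fun_prop)) x
  let φ : C({x : M // IsUnit x}, {x : M // IsUnit x}) :=
    ⟨fun x => ⟨G (1, x), x.2.map (⟨⟨fun x => G (1, x), G1 1⟩, Gm 1⟩ : M →* M)⟩, by fun_prop⟩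
  have a := htpy G cG G1 Gm (ContinuousMap.id _) φ (fun x => (G0 x).symm) fun x => rfl
  have hec := he.c
  have b := htpy (fun q => 1 - e q.1 + G (1, q.2) * e q.1) (by fun_prop) (fun r => by simp [G1])
    (fun r x y => by
      have a := he.i r
      have f : ∀ z, e r * (G (1, z) * e r) = G (1, z) * e r := fun z => by
        rw [← mul_assoc, eG, mul_assoc, a]
      simp only [Gm, mul_add, add_mul, mul_sub, sub_mul, one_mul, mul_one, f, a, mul_assoc]
      abel) (ContinuousMap.const _ ⟨1, isUnit_one⟩) φ (fun x => by simp [he.z])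
      (fun x => by simp [he.o, φ])
  exact (contractible_iff_id_nullhomotopic _).2 ⟨_, a.trans b.symm⟩

end Pool.Agent.H.MP_242378_al
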