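import Pool.Agent.H.MP_242378_al.A

set_option autoImplicit false

namespace Pool.Agent.H.MP_242378_al

open Filter Topology Classical

abbrev Mat (F : Type) (n : ℕ) := Matrix (Fin n → Bool) (Fin n → Bool) F

def ex {n : ℕ} (a : Fin n → Bool) (j : ℕ) : Bool := if h : j < n then a ⟨j, h⟩ else false

theorem ex_init {n : ℕ} (a : Fin (n + 1) → Bool) {j : ℕ} (h : j ≠ n) :
    ex (Fin.init a) j = ex a j := by
  unfold ex
  by_cases h1 : j < n
  · rw [dif_pos h1, dif_pos (by omega)]; rfl
  · rw [dif_neg h1, dif_neg (by omega)]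

theorem ex_last {n : ℕ} (a : Fin (n + 1) → Bool) : ex a n = a (Fin.last n) := by
  simp [ex]; rfl

theorem ex_ge {n : ℕ} (a : Fin n → Bool) {j : ℕ} (h : n ≤ j) : ex a j = false := by
  simp [ex, h]

theorem ex_fin {n : ℕ} (a : Fin n → Bool) (i : Fin n) : ex a i = a i := by simp [ex]

theorem ex_inj {n : ℕ} {a b : Fin n → Bool} (h : ∀ j, ex a j = ex b j) : a = b :=
  funext fun i => by rw [← ex_fin a, ← ex_fin b, h]

variable {F : Type} [Field F]

/-- matrix of a kernel on infinite strings -/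
noncomputable def kr (N : ℕ) (n : ℕ) (k : (ℕ → Bool) → (ℕ → Bool) → F) : Mat F N :=
  Matrix.of fun a b => if ∀ j, n ≤ j → ex a j = ex b j then k (ex a) (ex b) else 0

def Dep2 (n : ℕ) (k : (ℕ → Bool) → (ℕ → Bool) → F) : Prop :=
  ∀ a a' b b' : ℕ → Bool, (∀ j < n, a j = a' j) → (∀ j < n, b j = b' j) → k a b = k a' b'

def dbl {n : ℕ} (x : Mat F n) : Mat F (n + 1) :=
  Matrix.of fun a b => if a (Fin.last n) = b (Fin.last n) then x (Fin.init a) (Fin.init b) else 0

theorem dbl_kr {N n : ℕ} (h : n ≤ N) {k : (ℕ → Bool) → (ℕ → Bool) → F} (hk : Dep2 n k) :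
    dbl (kr N n k) = kr (N + 1) n k := by
  ext a b
  simp only [dbl, kr, Matrix.of_apply]
  rw [hk _ (ex a) _ (ex b) (fun j hj => ex_init a (by omega)) (fun j hj => ex_init b (by omega))]
  by_cases h1 : ∀ j, n ≤ j → ex a j = ex b j
  · rw [if_pos h1, if_pos (by rw [← ex_last a, ← ex_last b, h1 N h]), if_pos]
    intro j hj
    by_cases e : j = N
    · rw [ex_ge _ e.ge, ex_ge _ e.ge]
    · rw [ex_init _ e, ex_init _ e, h1 j hj]
  · rw [if_neg h1]
    split_ifs with h2 h3
    · refine absurd (fun j hj => ?_) h1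
      by_cases e : j = N
      · rw [e, ex_last, ex_last, h2]
      · rw [← ex_init _ e, ← ex_init b e, h3 j hj]
    · rfl
    · rfl

variable {M : Type} [Ring M] (ι : ∀ n, Mat F n →+* M)

theorem lev (hc : ∀ n x, ι (n + 1) (dbl x) = ι n x) {N n : ℕ} (h : n ≤ N)
    {k : (ℕ → Bool) → (ℕ → Bool) → F} (hk : Dep2 n k) : ι N (kr N n k) = ι n (kr n n k) := by
  induction N, h using Nat.le_induction with
  | base => rfl
  | succ N h ih => rw [← dbl_kr h hk, hc, ih]

def kx {n : ℕ} (x : Mat F n) (a b : ℕ → Bool) : F := x (fun i => a i) (fun i => b i)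

theorem kx_dep {n : ℕ} (x : Mat F n) : Dep2 n (kx x) := fun a a' b b' h1 h2 => by
  unfold kx
  congr 1 <;> funext i
  exacts [h1 i i.2, h2 i i.2]

theorem lev_x (hc : ∀ n x, ι (n + 1) (dbl x) = ι n x) {N n : ℕ} (h : n ≤ N) (x : Mat F n) :
    ι N (kr N n (kx x)) = ι n x := by
  rw [lev ι hc h (kx_dep x)]
  congr 1
  ext a b
  simp only [kr, Matrix.of_apply, kx, ex_fin]
  rw [if_pos fun j hj => by rw [ex_ge _ hj, ex_ge _ hj]]

def DepOn (S : (ℕ → Bool) → Prop) (P : ℕ → Prop) : Prop :=
  ∀ a b : ℕ → Bool, (∀ j, P j → a j = b j) → (S a ↔ S b)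

theorem DepOn.mono {S : (ℕ → Bool) → Prop} {P Q : ℕ → Prop} (h : DepOn S P) (hPQ : ∀ j, P j → Q j) :
    DepOn S Q := fun a b hab => h a b fun j hj => hab j (hPQ j hj)

noncomputable def dg (F : Type) [Field F] (N : ℕ) (S : (ℕ → Bool) → Prop) : Mat F N :=
  Matrix.diagonal fun a => if S (ex a) then 1 else 0

theorem lev_dg (hc : ∀ n x, ι (n + 1) (dbl x) = ι n x) {N n : ℕ} (h : n ≤ N)
    {S : (ℕ → Bool) → Prop} (hS : DepOn S (· < n)) : ι N (dg F N S) = ι n (dg F n S) := by
  have key : ∀ N, n ≤ N → dg F N S = kr N n fun a b =>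
      if ∀ j < n, a j = b j then (if S a then 1 else 0) else 0 := by
    intro N _
    ext a b
    simp only [dg, kr, Matrix.of_apply, Matrix.diagonal_apply]
    by_cases e : a = b
    · simp [e]
    · rw [if_neg e]
      split_ifs with h1 h2
      · exact absurd (ex_inj fun j => (lt_or_ge j n).elim (h2 j) (h1 j)) e
      · exact absurd (ex_inj fun j => (lt_or_ge j n).elim (h2 j) (h1 j)) e
      · rfl
      · rfl
  rw [key N h, key n le_rfl]
  refine lev ι hc h fun a a' b b' h1 h2 => ?_
  have e1 : (∀ j < n, a j = b j) ↔ ∀ j < n, a' j = b' j :=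
    forall_congr' fun j => forall_congr' fun hj => by rw [h1 j hj, h2 j hj]
  simp only [e1, hS a a' h1]

theorem dg_comm (hc : ∀ n x, ι (n + 1) (dbl x) = ι n x) {N n : ℕ} (h : n ≤ N)
    {S : (ℕ → Bool) → Prop} (hS : DepOn S (n ≤ ·)) (x : Mat F n) :
    Commute (ι N (dg F N S)) (ι n x) := by
  rw [← lev_x ι hc h x]
  refine Commute.map ?_ (ι N)
  ext a b
  simp only [dg, kr, Matrix.diagonal_mul, Matrix.mul_diagonal, Matrix.of_apply]
  by_cases h1 : ∀ j, n ≤ j → ex a j = ex b j
  · simp only [hS _ _ h1, mul_comm]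
  · simp [h1]

def th (N p q : ℕ) (a : Fin N → Bool) : Fin N → Bool := fun i => ex a (Equiv.swap p q i)

theorem ex_th {N p q : ℕ} (hp : p < N) (hq : q < N) (a : Fin N → Bool) (j : ℕ) :
    ex (th N p q a) j = ex a (Equiv.swap p q j) := by
  by_cases h : j < N
  · simp [ex, h, th]
  · rw [ex_ge _ (by omega), Equiv.swap_apply_of_ne_of_ne (by omega) (by omega), ex_ge _ (by omega)]

theorem th_th {N p q : ℕ} (hp : p < N) (hq : q < N) (a : Fin N → Bool) :
    th N p q (th N p q a) = a := ex_inj fun j => by simp [ex_th hp hq]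

noncomputable def pm (F : Type) [Field F] (N p q : ℕ) : Mat F N :=
  Matrix.of fun a b => if b = th N p q a then 1 else 0

theorem pm_mul {N p q : ℕ} (y : Mat F N) (a b) : (pm F N p q * y) a b = y (th N p q a) b := by
  simp [pm, Matrix.mul_apply]

theorem mul_pm {N p q : ℕ} (hp : p < N) (hq : q < N) (y : Mat F N) (a b) :
    (y * pm F N p q) a b = y a (th N p q b) := by
  have : ∀ c, (b = th N p q c) ↔ c = th N p q b := fun c =>
    ⟨fun h => by rw [h, th_th hp hq], fun h => by rw [h, th_th hp hq]⟩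
  simp [pm, Matrix.mul_apply, this]

theorem lev_pm (hc : ∀ n x, ι (n + 1) (dbl x) = ι n x) {N n p q : ℕ} (hp : p < n) (hq : q < n)
    (h : n ≤ N) : ι N (pm F N p q) = ι n (pm F n p q) := by
  have sw : ∀ j < n, Equiv.swap p q j < n := fun j hj => by
    rw [Equiv.swap_apply_def]; split_ifs <;> omega
  have key : ∀ N, n ≤ N → pm F N p q = kr N n fun a b =>
      if ∀ j < n, b j = a (Equiv.swap p q j) then 1 else 0 := by
    intro N hN
    ext a b
    simp only [pm, kr, Matrix.of_apply]
    have t := ex_th (N := N) (p := p) (q := q) (by omega) (by omega) a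
    by_cases e : b = th N p q a
    · rw [if_pos e, if_pos, if_pos]
      · intro j _; rw [e, t]
      · intro j hj; rw [e, t, Equiv.swap_apply_of_ne_of_ne (by omega) (by omega)]
    · rw [if_neg e]
      split_ifs with h1 h2
      · refine absurd (ex_inj fun j => ?_) e
        rw [t]
        rcases lt_or_ge j n with hj | hj
        · exact h2 j hj
        · rw [Equiv.swap_apply_of_ne_of_ne (by omega) (by omega), h1 j hj]
      · rfl
      · rfl
  rw [key N h, key n le_rfl]
  refine lev ι hc h fun a a' b b' h1 h2 => ?_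
  have e1 : (∀ j < n, b j = a (Equiv.swap p q j)) ↔ ∀ j < n, b' j = a' (Equiv.swap p q j) :=
    forall_congr' fun j => forall_congr' fun hj => by rw [h1 _ (sw j hj), h2 j hj]
  simp only [e1]

noncomputable def Wn (n : ℕ) : M := ι (2 * n + 2) (pm F (2 * n + 2) n (2 * n + 1))

theorem Wn_sq (n : ℕ) : Wn ι n * Wn ι n = 1 := by
  rw [Wn, ← map_mul, ← map_one (ι (2 * n + 2))]
  congr 1
  ext a b
  rw [pm_mul, pm, Matrix.of_apply, th_th (by omega) (by omega), Matrix.one_apply]
  simp only [eq_comm]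

theorem Wn_comm (hc : ∀ n x, ι (n + 1) (dbl x) = ι n x) (n : ℕ) (x : Mat F n) :
    Commute (Wn ι n) (ι n x) := by
  rw [← lev_x ι hc (show n ≤ 2 * n + 2 by omega) x]
  refine Commute.map ?_ (ι _)
  ext a b
  rw [pm_mul, mul_pm (by omega) (by omega)]
  have t := ex_th (N := 2 * n + 2) (p := n) (q := 2 * n + 1) (by omega) (by omega)
  simp only [kr, Matrix.of_apply, t]
  have e1 : (∀ j, n ≤ j → ex a (Equiv.swap n (2 * n + 1) j) = ex b j) ↔
      ∀ j, n ≤ j → ex a j = ex b (Equiv.swap n (2 * n + 1) j) := by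
    have sw : ∀ j, n ≤ j → n ≤ Equiv.swap n (2 * n + 1) j := fun j hj => by
      rw [Equiv.swap_apply_def]; split_ifs <;> omega
    exact ⟨fun h j hj => by simpa using h _ (sw j hj), fun h j hj => by simpa using h _ (sw j hj)⟩
  simp only [e1]
  rw [kx_dep x _ (ex a) _ (ex (th (2 * n + 2) n (2 * n + 1) b))]
  · intro j hj; rw [t, Equiv.swap_apply_of_ne_of_ne (by omega) (by omega)]
  · intro j hj; rw [t, Equiv.swap_apply_of_ne_of_ne (by omega) (by omega)]

theorem Wn_dg (hc : ∀ n x, ι (n + 1) (dbl x) = ι n x) {n N : ℕ} (h : 2 * n + 2 ≤ N)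
    (S : (ℕ → Bool) → Prop) : ι N (dg F N S) * Wn ι n =
      Wn ι n * ι N (dg F N fun a => S fun j => a (Equiv.swap n (2 * n + 1) j)) := by
  rw [Wn, ← lev_pm ι hc (by omega) (by omega) h, ← map_mul, ← map_mul]
  congr 1
  ext a b
  rw [pm_mul, mul_pm (by omega) (by omega)]
  have t := ex_th (N := N) (p := n) (q := 2 * n + 1) (by omega) (by omega)
  have u := th_th (N := N) (p := n) (q := 2 * n + 1) (by omega) (by omega)
  simp only [dg, Matrix.diagonal_apply, t, Equiv.swap_apply_self]
  by_cases e : a = th N n (2 * n + 1) b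
  · have e' : th N n (2 * n + 1) a = b := by rw [e, u]
    rw [if_pos e, if_pos e']
  · have e' : ¬ th N n (2 * n + 1) a = b := fun h => e (by rw [← h, u])
    rw [if_neg e, if_neg e']

theorem U_dg (hc : ∀ n x, ι (n + 1) (dbl x) = ι n x) {N : ℕ} {S : (ℕ → Bool) → Prop}
    (hS : DepOn S (· % 2 = 0)) (n : ℕ) (h : 2 * n ≤ N) :
    ∃ S', DepOn S' (fun j => n ≤ j ∧ (j % 2 = 1 → j < 2 * n + 1)) ∧
      ι N (dg F N S) * U (Wn ι) n = U (Wn ι) n * ι N (dg F N S') ∧
      V (Wn ι) n * ι N (dg F N S) = ι N (dg F N S') * V (Wn ι) n := by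
  induction n with
  | zero => exact ⟨S, hS.mono fun j hj => by omega, by simp [U], by simp [V]⟩
  | succ n ih =>
    obtain ⟨S', h1, h2, h3⟩ := ih (by omega)
    have h4 := Wn_dg ι hc (n := n) (N := N) (by omega) S'
    refine ⟨fun a => S' fun j => a (Equiv.swap n (2 * n + 1) j), fun a b hab => h1 _ _ ?_, ?_, ?_⟩
    · intro j hj
      apply hab
      rw [Equiv.swap_apply_def]; split_ifs <;> omega
    · rw [U, ← mul_assoc, h2, mul_assoc, h4, mul_assoc]
    · rw [V, mul_assoc, h3, ← mul_assoc, ← mul_assoc]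
      congr 1
      have s := Wn_sq ι n
      calc _ = Wn ι n * (ι N (dg F N S') * Wn ι n) * Wn ι n := by
            rw [mul_assoc, mul_assoc, s, mul_one]
        _ = _ := by rw [h4, ← mul_assoc, s, one_mul]

def val (d : ℕ → ℕ) (a : ℕ → Bool) : ℕ → ℕ
  | 0 => 0
  | m + 1 => 2 * val d a m + if a (d m) then 1 else 0

theorem val_dep (d : ℕ → ℕ) {a b : ℕ → Bool} (m : ℕ) (h : ∀ i < m, a (d i) = b (d i)) :
    val d a m = val d b m := by
  induction m with
  | zero => rfl
  | succ m ih => rw [val, val, ih fun i hi => h i (by omega), h m (by omega)]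

theorem count {d : ℕ → ℕ} (hd : StrictMono d) (N m : ℕ) (hm : d m ≤ N) (k : ℕ) :
    2 ^ m * (Finset.univ.filter fun a : Fin N → Bool => val d (ex a) m = k).card ≤ 2 ^ N := by
  induction m generalizing k with
  | zero =>
    simpa using (Finset.card_filter_le (Finset.univ : Finset (Fin N → Bool)) _).trans (by simp)
  | succ m ih =>
    have hlt : d m < N := lt_of_lt_of_le (hd (by omega)) hm
    refine le_trans ?_ (ih hlt.le (k / 2))
    rw [pow_succ, mul_assoc]
    refine Nat.mul_le_mul_left _ ?_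
    let fl : (Fin N → Bool) → (Fin N → Bool) := fun a => Function.update a ⟨d m, hlt⟩ (!a ⟨d m, hlt⟩)
    have f1 : ∀ a, ex (fl a) (d m) = !ex a (d m) := fun a => by simp [fl, ex, hlt]
    have f2 : ∀ a, val d (ex (fl a)) m = val d (ex a) m := fun a => val_dep d m fun i hi => by
      have := hd hi
      have h' : d i < N := by omega
      simp only [ex, h', dif_pos, fl]
      rw [Function.update_of_ne (by simp; omega)]
    have f3 : Function.Involutive fl := fun a => by simp [fl]
    set T := Finset.univ.filter fun a : Fin N → Bool => val d (ex a) (m + 1) = k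
    have : (T ∪ T.image fl).card = 2 * T.card := by
      rw [Finset.card_union_of_disjoint, Finset.card_image_of_injective _ f3.injective, two_mul]
      rw [Finset.disjoint_left]
      intro a ha hb
      obtain ⟨b, hb', rfl⟩ := Finset.mem_image.1 hb
      simp only [T, Finset.mem_filter, Finset.mem_univ, true_and, val, f1, f2] at ha hb'
      cases h : ex b (d m) <;> simp [h] at ha hb' <;> omega
    rw [← this]
    refine Finset.card_le_card fun a ha => ?_
    have key : ∀ b ∈ T, val d (ex b) m = k / 2 := fun b hb => by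
      simp only [T, Finset.mem_filter, Finset.mem_univ, true_and, val] at hb
      split_ifs at hb <;> omega
    simp only [Finset.mem_filter, Finset.mem_univ, true_and]
    rcases Finset.mem_union.1 ha with h | h
    · exact key a h
    · obtain ⟨b, hb, rfl⟩ := Finset.mem_image.1 h
      rw [f2, key b hb]

end Pool.Agent.H.MP_242378_al
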