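import Pool.Agent.H.MP_242378_al.B

set_option autoImplicit false

namespace Pool.Agent.H.MP_242378_al

open Filter Topology Classical

variable {F : Type} [Field F] {M : Type} [Ring M] [MetricSpace M] [CompleteSpace M]
  [IsTopologicalRing M] (ι : ∀ n, Mat F n →+* M)

theorem ipath (hc : ∀ n x, ι (n + 1) (dbl x) = ι n x)
    (hd : ∀ n x y, dist (ι n x) (ι n y) = ((x - y).rank : ℝ) / 2 ^ n) {d : ℕ → ℕ}
    (hm : StrictMono d) : ∃ e : unitInterval → M, IP e ∧ ∀ y : M,
      (∀ n, ∀ S, DepOn S (fun j => ∃ i, j = d i) → DepOn S (· < n) →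
        ∃ N, n ≤ N ∧ Commute (ι N (dg F N S)) y) → ∀ s, Commute (e s) y := by
  have dep : ∀ m k, DepOn (fun a => val d a m < k) (fun j => ∃ i < m, j = d i) :=
    fun m k a b h => by simp only [val_dep d m fun i hi => h _ ⟨i, hi, rfl⟩]
  have dep' : ∀ m k, DepOn (fun a => val d a m < k) (· < d m) := fun m k =>
    (dep m k).mono (by rintro _ ⟨i, hi, rfl⟩; exact hm hi)
  obtain ⟨e, h1, h2, h3, h4⟩ := path (fun m k => ι (d m) (dg F (d m) fun a => val d a m < k))
    (fun m k => by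
      rw [← lev_dg ι hc (hm.monotone (Nat.le_succ m)) (dep' m k)]
      congr 2
      funext a
      simp only [val, eq_iff_iff]
      split_ifs <;> omega)
    (fun m k => by
      rw [hd, dg, dg, Matrix.diagonal_sub, Matrix.rank_diagonal, Fintype.card_subtype]
      have := count hm (d m) m le_rfl k
      rw [div_le_div_iff₀ (by positivity) (by positivity), one_mul, mul_comm]
      refine le_trans ?_ (by exact_mod_cast this : ((2 : ℝ) ^ m * ((Finset.univ.filter
        fun a : Fin (d m) → Bool => val d (ex a) m = k).card : ℝ)) ≤ 2 ^ d m)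
      gcongr with a
      intro h
      by_contra hne
      apply h
      have : val d (ex a) m < k ↔ val d (ex a) m < k + 1 := by omega
      simp [this])
  refine ⟨e, ⟨h1, ?_, ?_, fun s => ?_⟩, fun y hy s => ?_⟩
  · simp [h2, dg]
  · simp [h3, dg, val]
  · refine closure_minimal (t := {x : M | x * x = x}) ?_
      (isClosed_eq (by fun_prop) (by fun_prop)) (h4 s)
    rintro _ ⟨m, k, rfl⟩
    simp only [Set.mem_setOf_eq, dg]
    rw [← map_mul, Matrix.diagonal_mul_diagonal]
    congr 2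
    funext a
    split_ifs <;> simp
  · refine closure_minimal (t := {x : M | x * y = y * x}) ?_
      (isClosed_eq (by fun_prop) (by fun_prop)) (h4 s)
    rintro _ ⟨m, k, rfl⟩
    obtain ⟨N, hN, h⟩ := hy (d m) _ ((dep m k).mono (by rintro _ ⟨i, _, rfl⟩; exact ⟨i, rfl⟩))
      (dep' m k)
    rw [lev_dg ι hc hN (dep' m k)] at h
    exact h

theorem main (hc : ∀ n x, ι (n + 1) (dbl x) = ι n x)
    (hd : ∀ n x y, dist (ι n x) (ι n y) = ((x - y).rank : ℝ) / 2 ^ n)
    (hden : Dense (⋃ n, Set.range (ι n))) : ContractibleSpace {x : M // IsUnit x} := by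
  have hA : Monotone fun n => Set.range (ι n) := by
    rintro n N h _ ⟨x, rfl⟩
    exact ⟨_, lev_x ι hc h x⟩
  have h3 : ∀ P : M → M → M → Prop, IsClosed {q : M × M × M | P q.1 q.2.1 q.2.2} →
      (∀ n x y z, P (ι n x) (ι n y) (ι n z)) → ∀ a b c, P a b c := by
    intro P hP h a b c
    refine (hden.prod (hden.prod hden)).induction (P := fun q => P q.1 q.2.1 q.2.2) ?_ hP (a, b, c)
    rintro ⟨a, b, c⟩ ⟨ha, hb, hc⟩
    obtain ⟨i, ha⟩ := Set.mem_iUnion.1 ha
    obtain ⟨j, hb⟩ := Set.mem_iUnion.1 hb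
    obtain ⟨k, hc⟩ := Set.mem_iUnion.1 hc
    obtain ⟨x, rfl⟩ := hA (show i ≤ i + j + k by omega) ha
    obtain ⟨y, rfl⟩ := hA (show j ≤ i + j + k by omega) hb
    obtain ⟨z, rfl⟩ := hA (show k ≤ i + j + k by omega) hc
    exact h _ x y z
  choose E hE hE' using fun n => ipath ι hc hd (d := fun i => 2 * n + 2 + i)
    (fun i j h => by simpa using h)
  have hEA : ∀ n s, ∀ x ∈ Set.range (ι (2 * n + 2)), Commute (E n s) x := by
    rintro n s _ ⟨x, rfl⟩
    refine hE' n _ (fun m S h1 _ => ⟨m + (2 * n + 2), by omega, ?_⟩) s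
    exact dg_comm ι hc (by omega) (h1.mono (by rintro _ ⟨i, rfl⟩; omega)) x
  obtain ⟨e, he, he'⟩ := ipath ι hc hd (d := fun i => 2 * i) (fun i j h => by simpa using h)
  refine contr (h3 (fun a b c => dist (a * b) (a * c) ≤ dist b c)
      (isClosed_le (by fun_prop) (by fun_prop)) fun n x y z => ?_)
    (h3 (fun a b c => dist (b * a) (c * a) ≤ dist b c)
      (isClosed_le (by fun_prop) (by fun_prop)) fun n x y z => ?_)
    _ hA hden (Wn ι) (Wn_sq ι) ?_ E hE (fun n s x hx => hEA n s x (hA (by omega) hx))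
    (fun n s => hEA n s _ ⟨_, rfl⟩) e he ?_
  · rw [← map_mul, ← map_mul, hd, hd, ← mul_sub]
    gcongr
    exact Matrix.rank_mul_le_right _ _
  · rw [← map_mul, ← map_mul, hd, hd, ← sub_mul]
    gcongr
    exact Matrix.rank_mul_le_left _ _
  · rintro n _ ⟨x, rfl⟩
    exact Wn_comm ι hc n x
  · rintro n s _ ⟨x, rfl⟩
    refine he' _ (fun m S h1 _ => ⟨m + 2 * n, by omega, ?_⟩) s
    obtain ⟨S', a1, a2, a3⟩ := U_dg ι hc (N := m + 2 * n)
      (h1.mono (Q := (· % 2 = 0)) (by rintro _ ⟨i, rfl⟩; omega)) n (by omega)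
    have a4 := (dg_comm ι hc (show n ≤ m + 2 * n by omega) (a1.mono fun j hj => hj.1) x).eq
    unfold Commute SemiconjBy
    rw [← mul_assoc, ← mul_assoc, a2, mul_assoc (U _ _), a4, mul_assoc, mul_assoc, ← a3]
    simp only [mul_assoc]

end Pool.Agent.H.MP_242378_al
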